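import Pool.Agent.N684.MC.MomD
import Pool.Agent.TH841.PT.Pen

/-! **Ranks and Tate-Shafarevich groups over multiquadratic fields, by the conductor**
(helper684). -/

set_option autoImplicit false

namespace Pool.Agent.N684.MC

open Filter Finset Topology Pool.Agent.H925R.Szpiro Pool.Agent.W307.RT Pool.Agent.Y679.Cr
open Pool.Agent.TH498.CO (one_le_of_bd)
open Pool.Agent.TH841.SH (Bd)
open Pool.Agent.TH841.NF (EF Gen)
open Pool.Agent.TH841.NF.D (HasDiv crk rk)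

variable {P : ℤ × ℤ → Prop}

/-- one curve and one field -/
theorem fieldB (hP : Good P) {n : ℤ → ℤ × ℤ → ℝ}
    (hn : ∀ d : ℤ, d ≠ 0 → ∀ c, P c → Bd (Sh (d ^ 2 * c.1) (d ^ 3 * c.2)) (n d c))
    {F : Type} [Field F] [NumberField F] {s : ℕ} {d : Fin s → ℤ} (hF : Gen F d)
    (hd : ∀ i, d i ≠ 0) {c : ℤ × ℤ} (hc : P c) {q : ℕ} (hq : HasDiv (EF c.1 c.2 F) q) :
    (2 : ℝ) ^ (rk (EF c.1 c.2 F) + q) ≤ ∏ T : Finset (Fin s), n (∏ i ∈ T, d i) c := by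
  classical
  obtain ⟨h1, h2⟩ := hP.ok c hc
  obtain ⟨e1, e2, e3, hs, ha, hb⟩ := fullS_int _ _ h2
  have hx : ∀ x : ℤ, x ^ 3 + c.1 * x + c.2 = (x - e1) * (x - e2) * (x - e3) := by
    intro x
    have ha' : c.1 = e1 * e2 + e1 * e3 + e2 * e3 := by linarith
    have hb' : c.2 = -(e1 * e2 * e3) := by linarith
    rw [ha', hb']
    linear_combination (x ^ 2) * hs
  have hD : 4 * c.1 ^ 3 + 27 * c.2 ^ 2 ≠ 0 := by
    have : 4 * c.1 ^ 3 + 27 * c.2 ^ 2 = -(D (-c.1) (-c.2)) := by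
      unfold D
      ring
    rw [this, neg_ne_zero]
    exact h1.1
  have hne : ∀ T : Finset (Fin s), ∏ i ∈ T, d i ≠ 0 := fun T =>
    prod_ne_zero_iff.2 fun i _ => hd i
  exact Pool.Agent.TH841.NF.one_field (d := d) hF hd hD _ (fun T => hn _ (hne T) c hc)
    (fun T => Pool.Agent.W307.RG.fin_tw hD hx (hne T)) hq

lemma om_le {s : ℕ} {d : Fin s → ℤ} (hd : ∀ i, d i ≠ 0) (T : Finset (Fin s)) :
    om (∏ i ∈ T, d i) ≤ om (∏ i, d i) := by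
  unfold om
  refine card_le_card (Nat.primeFactors_mono ?_ ?_)
  · exact Int.natAbs_dvd_natAbs.2 (prod_dvd_prod_of_subset _ _ _ (subset_univ T))
  · exact Int.natAbs_ne_zero.2 (prod_ne_zero_iff.2 fun i _ => hd i)

lemma abs_le {s : ℕ} {d : Fin s → ℤ} (hd : ∀ i, d i ≠ 0) (T : Finset (Fin s)) :
    (∏ i ∈ T, d i).natAbs ≤ (∏ i, d i).natAbs :=
  Nat.le_of_dvd (Nat.pos_of_ne_zero (Int.natAbs_ne_zero.2 (prod_ne_zero_iff.2 fun i _ => hd i)))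
    (Int.natAbs_dvd_natAbs.2 (prod_dvd_prod_of_subset _ _ _ (subset_univ T)))

/-- **from the twists to the field** -/
theorem multi (hP : Good P) {n : ℤ → ℤ × ℤ → ℝ}
    (hn : ∀ d : ℤ, d ≠ 0 → ∀ c, P c → Bd (Sh (d ^ 2 * c.1) (d ^ 3 * c.2)) (n d c))
    {θ : ℝ} (hθ : 0 < θ) {B C V G : ℝ} (hC : 0 ≤ C) (hV : 1 ≤ V) (hG : 0 ≤ G)
    {S : Finset (ℤ × ℤ)} (hSP : ∀ c ∈ S, P c)
    (hsum : ∀ d : ℤ, d ≠ 0 → (d.natAbs : ℝ) ≤ B → ∑ c ∈ S, n d c ^ θ ≤ C * V ^ om d * G)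
    {F : Type} [Field F] [NumberField F] {s : ℕ} {d : Fin s → ℤ} (hF : Gen F d)
    (hd : ∀ i, d i ≠ 0) (hB : ((∏ i, d i).natAbs : ℝ) ≤ B) :
    (∀ c ∈ S, BddAbove {q | HasDiv (EF c.1 c.2 F) q}) ∧
      ∑ c ∈ S, ((2 : ℝ) ^ (rk (EF c.1 c.2 F) + crk (EF c.1 c.2 F))) ^ (θ / 2 ^ s) ≤
        C * V ^ om (∏ i, d i) * G ∧
      ∀ m : ℕ, ((S.filter (fun c => m ≤ rk (EF c.1 c.2 F) + crk (EF c.1 c.2 F))).card : ℝ) ≤
        C * V ^ om (∏ i, d i) * G / ((2 : ℝ) ^ m) ^ (θ / 2 ^ s) := by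
  classical
  have hne : ∀ T : Finset (Fin s), ∏ i ∈ T, d i ≠ 0 := fun T =>
    prod_ne_zero_iff.2 fun i _ => hd i
  have hn0 : ∀ c ∈ S, ∀ T : Finset (Fin s), 0 ≤ n (∏ i ∈ T, d i) c := fun c hc T =>
    zero_le_one.trans (one_le_of_bd (hn _ (hne T) c (hSP c hc)))
  refine Pool.Agent.TH841.NF.famR S (fun _ => F) (fun c => EF c.1 c.2 F)
    (fun c => ∏ T : Finset (Fin s), n (∏ i ∈ T, d i) c) (θ / 2 ^ s) (by positivity) _
    (fun c hc q hq => fieldB hP hn hF hd (hSP c hc) hq) ?_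
  have hc : (Fintype.card (Finset (Fin s)) : ℝ) = 2 ^ s := by
    rw [Fintype.card_finset, Fintype.card_fin]
    push_cast
    rfl
  have hstep : ∀ c ∈ S, (∏ T : Finset (Fin s), n (∏ i ∈ T, d i) c) ^ (θ / 2 ^ s) ≤
      ∑ T : Finset (Fin s), ((1 : ℝ) / 2 ^ s) * n (∏ i ∈ T, d i) c ^ θ := by
    intro c hcS
    have h1 := Pool.Agent.TH841.PT.prod_rpow_one
      (fun T : Finset (Fin s) => n (∏ i ∈ T, d i) c ^ θ)
      (fun T => Real.rpow_nonneg (hn0 c hcS T) _)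
    rw [hc] at h1
    refine le_trans (le_of_eq ?_) h1
    rw [Real.finsetProd_rpow _ _ (fun T _ => hn0 c hcS T), ← Real.rpow_mul
      (prod_nonneg fun T _ => hn0 c hcS T)]
    congr 1
    ring
  refine (sum_le_sum hstep).trans ?_
  rw [sum_comm]
  have hT : ∀ T ∈ (univ : Finset (Finset (Fin s))),
      ∑ c ∈ S, ((1 : ℝ) / 2 ^ s) * n (∏ i ∈ T, d i) c ^ θ ≤
      ((1 : ℝ) / 2 ^ s) * (C * V ^ om (∏ i, d i) * G) := by
    intro T _
    rw [← mul_sum]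
    refine mul_le_mul_of_nonneg_left ?_ (by positivity)
    refine (hsum _ (hne T) ?_).trans ?_
    · exact le_trans (by exact_mod_cast abs_le hd T) hB
    · refine mul_le_mul_of_nonneg_right (mul_le_mul_of_nonneg_left ?_ hC) hG
      exact pow_le_pow_right₀ hV (om_le hd T)
  refine (sum_le_sum hT).trans (le_of_eq ?_)
  rw [sum_const, card_univ, nsmul_eq_mul, hc]
  field_simp

/-- **from the moment to the average** -/
theorem aver {S : Finset (ℤ × ℤ)} {a : ℤ × ℤ → ℝ} {θ M : ℝ} (hθ : 0 < θ) (hM : 1 ≤ M)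
    (h : ∑ c ∈ S, (2 : ℝ) ^ (θ * a c) ≤ M * S.card) :
    ∑ c ∈ S, a c ≤ Real.log M / (θ * Real.log 2) * S.card := by
  have hM0 : 0 < M := by linarith
  have hl2 : 0 < Real.log 2 := Real.log_pos (by norm_num)
  have h1 : ∀ c ∈ S, θ * a c * Real.log 2 ≤ Real.log M + (2 : ℝ) ^ (θ * a c) / M - 1 := by
    intro c _
    have h2 : (0 : ℝ) < (2 : ℝ) ^ (θ * a c) := by positivity
    have h3 := Real.log_le_sub_one_of_pos (div_pos h2 hM0)
    rw [Real.log_div h2.ne' hM0.ne', Real.log_rpow (by norm_num)] at h3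
    linarith
  have h2 := sum_le_sum h1
  rw [sum_sub_distrib, sum_add_distrib, sum_const, sum_const, nsmul_eq_mul, nsmul_eq_mul,
    ← sum_div, ← sum_mul, ← mul_sum] at h2
  have h3 : (∑ c ∈ S, (2 : ℝ) ^ (θ * a c)) / M ≤ S.card := by
    rw [div_le_iff₀ hM0]
    linarith
  have h4 : θ * Real.log 2 * ∑ c ∈ S, a c ≤ Real.log M * S.card := by nlinarith
  rw [div_mul_eq_mul_div, le_div_iff₀ (by positivity)]
  linarith

end Pool.Agent.N684.MC
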