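import Pool.Agent.N684.MC.Triv
import Pool.Agent.Y679.Cr.Mom
import Pool.Agent.TH498.CO.U3
import Pool.Agent.TH498.CO.Lim

/-! **The moments of the 2-Selmer groups of the quadratic twists of the curves ordered by the
conductor, uniformly in the twist** (helper684). -/

set_option autoImplicit false

namespace Pool.Agent.N684.MC

open Filter Finset Topology Pool.Agent.H925R.Szpiro Pool.Agent.W307.RT Pool.Agent.Y679.Cr
  Pool.Agent.TH498.CO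
open Pool.Agent.TH841.SH (Bd)

/-- the number of the prime divisors -/
def om (d : ℤ) : ℕ := d.natAbs.primeFactors.card

/-- **The sum over the parameters, with a twist.** -/
theorem sum_tw (θ : ℝ) (hθ0 : 0 < θ) (hθ : θ < 2 / 3) (K A : ℝ) (hK : 0 ≤ K) (hA : 0 ≤ A) :
    ∃ C : ℝ, 1 ≤ C ∧ ∀ N : ℝ, 1 ≤ N → ∀ d : ℤ, d ≠ 0 → (d.natAbs : ℝ) ≤ N ^ A →
      ∀ T ⊆ TN (6 * N) K, ∑ t ∈ T, ev sel d t ^ θ ≤ C * 128 ^ om d * N ^ ((2 : ℝ) / 3) := by
  classical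
  obtain ⟨C, hC, hall⟩ := all_twists2 θ hθ0 hθ K A hK hA
  refine ⟨12 * C * 6, by linarith, fun N hN d hd hdN T hT => ?_⟩
  obtain ⟨X, hX⟩ : ∃ X : ℝ, X = 6 * N := ⟨_, rfl⟩
  rw [← hX] at hT
  have hX1 : 1 ≤ X := by rw [hX]; linarith
  have hX0 : 0 < X := by linarith
  have hdX : (d.natAbs : ℝ) ≤ X ^ A :=
    hdN.trans (Real.rpow_le_rpow (by linarith) (by rw [hX]; linarith) hA)
  have h0 : ∑ t ∈ T, ev sel d t ^ θ ≤ ∑ t ∈ TN X K, ev sel d t ^ θ :=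
    sum_le_sum_of_subset_of_nonneg hT fun t _ _ => Real.rpow_nonneg (sel_nonneg _ _) _
  refine h0.trans ?_
  unfold TN
  rw [sum_product]
  have hk2 : ∀ x ∈ ({1, -1} : Finset ℤ) ×ˢ (range 2 ×ˢ range 3),
      ∑ y ∈ ((Icc 1 ⌊X⌋₊) ×ˢ (Icc 1 ⌊X⌋₊)).sigma fun x : ℕ × ℕ => TT X K x.1 x.2,
        ev sel d (x, y) ^ θ ≤ C * 128 ^ om d * X ^ ((2 : ℝ) / 3) := by
    rintro ⟨s, i, j⟩ hx
    rw [mem_product, mem_product, mem_range, mem_range, mem_insert, mem_singleton] at hx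
    simp only at hx
    rw [sum_sigma]
    exact hall X hX1 d hd hdX s hx.1 i j (by omega) (by omega)
  refine (sum_le_card_nsmul _ _ _ hk2).trans ?_
  rw [nsmul_eq_mul]
  have hcard : (({1, -1} : Finset ℤ) ×ˢ (range 2 ×ˢ range 3)).card ≤ 12 := by
    rw [card_product, card_product, card_range, card_range]
    have h2 : ({1, -1} : Finset ℤ).card ≤ 2 := card_le_two
    omega
  have hcard' : (((({1, -1} : Finset ℤ) ×ˢ (range 2 ×ˢ range 3)).card : ℕ) : ℝ) ≤ 12 := by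
    exact_mod_cast hcard
  have hXN : X ^ ((2 : ℝ) / 3) ≤ 6 * N ^ ((2 : ℝ) / 3) := by
    rw [hX]
    exact six_rpow hN (by norm_num)
  have hV : (0 : ℝ) ≤ 128 ^ om d := by positivity
  calc _ ≤ 12 * (C * 128 ^ om d * X ^ ((2 : ℝ) / 3)) :=
        mul_le_mul_of_nonneg_right hcard' (by positivity)
    _ ≤ 12 * (C * 128 ^ om d * (6 * N ^ ((2 : ℝ) / 3))) := by gcongr
    _ = _ := by ring

variable {P : ℤ × ℤ → Prop}

/-- **The fractional moments of the twists over all the curves.** -/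
theorem momD (hP : Good P) {θ : ℝ} (hθ0 : 0 < θ) (hθ : θ < 2 / 3) {A : ℝ} (hA : 0 ≤ A) :
    ∃ (C : ℝ) (n : ℤ → ℤ × ℤ → ℝ), 1 ≤ C ∧
      (∀ d : ℤ, d ≠ 0 → ∀ c, P c → Bd (Sh (d ^ 2 * c.1) (d ^ 3 * c.2)) (n d c)) ∧
      ∀ f : ℤ × ℤ → ℕ, Bdd f → ∀ Z : ℕ, 1 ≤ Z → ∀ d : ℤ, d ≠ 0 → (d.natAbs : ℝ) ≤ (Z : ℝ) ^ A →
        ∀ S : Finset (ℤ × ℤ), (S : Set (ℤ × ℤ)) ⊆ Gm P f Z →
        ∑ c ∈ S, n d c ^ θ ≤ C * 128 ^ om d * ((Gm P f Z).ncard : ℝ) := by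
  classical
  obtain ⟨C1, hC1, hcs⟩ := sum_tw θ hθ0 hθ 3 A (by norm_num) hA
  obtain ⟨η, C2, hη, hC2, htp⟩ := Tp_le hP
  obtain ⟨C3, hC3, heps⟩ := bd_eps_tw (η / θ) (by positivity)
  obtain ⟨c0, hc0, hall⟩ := Gm_all hP 1
  obtain ⟨τ, hτ⟩ := params
  have hC30 : 0 < C3 := by linarith
  obtain ⟨n', hn'⟩ : ∃ n' : ℤ → ℤ × ℤ → ℝ, n' = fun (d : ℤ) (c : ℤ × ℤ) =>
    if c ∈ Tp then C3 * ((cs c : ℕ) : ℝ) ^ (η / θ) * 4 ^ om d else ev sel d (τ (nu c)) :=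
    ⟨_, rfl⟩
  refine ⟨max 1 ((C1 + C3 ^ θ * C2) / c0), n', le_max_left _ _, fun d hd c hc => ?_,
    fun f hf Z hZ1 d hd hdZ S hS => ?_⟩
  · rw [hn']
    simp only
    obtain ⟨h1, h2⟩ := hP.ok c hc
    split_ifs with ht
    · have h3 := heps _ _ h1 h2 d hd
      rw [neg_neg, neg_neg] at h3
      exact h3
    · have h3 := (hτ (nu c) h1 h2).2.2.1 d hd
      unfold nu at h3 ⊢
      simp only [neg_neg] at h3
      exact h3
  rcases S.eq_empty_or_nonempty with hSe | hSn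
  · rw [hSe, sum_empty]; positivity
  have hne : (Gm P f Z).Nonempty := by
    obtain ⟨c, hc⟩ := hSn
    exact ⟨c, hS (mem_coe.2 hc)⟩
  have hall' := hall f hf Z hne
  rw [max_eq_left hZ1] at hall'
  have hZr : (1 : ℝ) ≤ (Z : ℝ) := by exact_mod_cast hZ1
  have hZ0 : (0 : ℝ) < (Z : ℝ) := by linarith
  have hV : (1 : ℝ) ≤ 128 ^ om d := one_le_pow₀ (by norm_num)
  rw [← sum_filter_add_sum_filter_not S (fun c => c ∈ Tp)]
  have h1 : ∑ c ∈ S.filter (fun c => c ∉ Tp), n' d c ^ θ ≤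
      C1 * 128 ^ om d * (Z : ℝ) ^ ((2 : ℝ) / 3) := by
    have hinj : Set.InjOn (fun c => τ (nu c)) (S.filter (fun c => c ∉ Tp) : Set (ℤ × ℤ)) := by
      intro q hq q' hq' h
      have g1 := hP.ok q (hS (mem_coe.2 (mem_filter.1 (mem_coe.1 hq)).1)).1
      have g2 := hP.ok q' (hS (mem_coe.2 (mem_filter.1 (mem_coe.1 hq')).1)).1
      obtain ⟨-, -, -, -, u1, u2⟩ := hτ (nu q) g1.1 g1.2
      obtain ⟨-, -, -, -, v1, v2⟩ := hτ (nu q') g2.1 g2.2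
      have h' : τ (nu q) = τ (nu q') := h
      rw [h'] at u1 u2
      have e1 : (nu q).1 = (nu q').1 := by linarith
      have e2 : (nu q).2 = (nu q').2 := by linarith
      exact nu_inj (Prod.ext e1 e2)
    refine le_trans (le_of_eq ?_) (hcs Z hZr d hd hdZ
      ((S.filter (fun c => c ∉ Tp)).image fun c => τ (nu c)) ?_)
    · rw [sum_image hinj]
      refine sum_congr rfl fun c hc => ?_
      rw [hn']
      simp only
      rw [if_neg (mem_filter.1 hc).2]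
    · intro t ht
      obtain ⟨c, hc, rfl⟩ := mem_image.1 ht
      obtain ⟨g1, g2⟩ := mem_filter.1 hc
      have g3 := mem_Fc hP hf le_rfl (hS (mem_coe.2 g1)) g2
      have g4 := (maps hP.ok (fun c _ => (hf c).1) (hS (mem_coe.2 g1))).2.2
      rw [one_mul] at g4
      exact (hτ (nu c) g3.1 g3.2.1).1 Z 3 hZr (by norm_num) g4 g3.2.2.2
  have h2 : ∑ c ∈ S.filter (fun c => c ∈ Tp), n' d c ^ θ ≤
      C3 ^ θ * C2 * 128 ^ om d * (Z : ℝ) ^ ((2 : ℝ) / 3) := by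
    have h3 : ∀ c ∈ S.filter (fun c => c ∈ Tp), n' d c ^ θ ≤ C3 ^ θ * (Z : ℝ) ^ η * 128 ^ om d := by
      intro c hc
      obtain ⟨g1, g2⟩ := mem_filter.1 hc
      rw [hn']
      simp only
      rw [if_pos g2, Real.mul_rpow (by positivity) (by positivity),
        Real.mul_rpow hC30.le (by positivity), ← Real.rpow_mul (Nat.cast_nonneg _),
        div_mul_cancel₀ _ hθ0.ne']
      refine mul_le_mul ?_ ?_ (by positivity) (by positivity)
      · refine mul_le_mul_of_nonneg_left ?_ (by positivity)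
        refine Real.rpow_le_rpow (Nat.cast_nonneg _) ?_ hη.le
        exact_mod_cast cs_le (hf c).1 (hS (mem_coe.2 g1)).2
      · calc ((4 : ℝ) ^ om d) ^ θ ≤ ((4 : ℝ) ^ om d) ^ (1 : ℝ) :=
              Real.rpow_le_rpow_of_exponent_le (one_le_pow₀ (by norm_num)) (by linarith)
          _ = 4 ^ om d := Real.rpow_one _
          _ ≤ 128 ^ om d := pow_le_pow_left₀ (by norm_num) (by norm_num) _
    have h4 : ((S.filter fun c => c ∈ Tp).card : ℝ) ≤ C2 * (Z : ℝ) ^ ((2 : ℝ) / 3 - η) := by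
      refine le_trans ?_ (htp f hf Z hZ1)
      rw [← Set.ncard_coe_finset]
      refine Nat.cast_le.2 (Set.ncard_le_ncard (fun c hc => ?_)
        ((Gm_fin hP hf Z).subset Set.inter_subset_left))
      obtain ⟨g1, g2⟩ := mem_filter.1 (mem_coe.1 hc)
      exact ⟨hS (mem_coe.2 g1), g2⟩
    refine (sum_le_card_nsmul _ _ _ h3).trans ?_
    rw [nsmul_eq_mul]
    have h5 : (0 : ℝ) ≤ C3 ^ θ * (Z : ℝ) ^ η * 128 ^ om d := by positivity
    refine (mul_le_mul_of_nonneg_right h4 h5).trans (le_of_eq ?_)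
    have h6 : (Z : ℝ) ^ ((2 : ℝ) / 3 - η) * (Z : ℝ) ^ η = (Z : ℝ) ^ ((2 : ℝ) / 3) := by
      rw [← Real.rpow_add hZ0]
      congr 1
      ring
    rw [← h6]
    ring
  have hpos : (0 : ℝ) ≤ (C1 + C3 ^ θ * C2) / c0 * 128 ^ om d := by positivity
  calc _ ≤ C3 ^ θ * C2 * 128 ^ om d * (Z : ℝ) ^ ((2 : ℝ) / 3) +
        C1 * 128 ^ om d * (Z : ℝ) ^ ((2 : ℝ) / 3) := add_le_add h2 h1
    _ = (C1 + C3 ^ θ * C2) / c0 * 128 ^ om d * (c0 * (Z : ℝ) ^ ((2 : ℝ) / 3)) := by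
        field_simp
        ring
    _ ≤ (C1 + C3 ^ θ * C2) / c0 * 128 ^ om d * ((Gm P f Z).ncard : ℝ) :=
        mul_le_mul_of_nonneg_left hall' hpos
    _ ≤ _ := mul_le_mul_of_nonneg_right (mul_le_mul_of_nonneg_right (le_max_right _ _)
        (by positivity)) (Nat.cast_nonneg _)

/-- **All the moments of the twists off a set of density zero.** -/
theorem offD (hP : Good P) : ∃ (X : Set (ℤ × ℤ)) (n : ℤ → ℤ × ℤ → ℝ),
    (∀ f : ℤ × ℤ → ℕ, Bdd f →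
      Tendsto (fun Z : ℕ => ((Gm P f Z ∩ X).ncard : ℝ) / (Gm P f Z).ncard) atTop (𝓝 0)) ∧
    (∀ d : ℤ, d ≠ 0 → ∀ c, P c → Bd (Sh (d ^ 2 * c.1) (d ^ 3 * c.2)) (n d c)) ∧
    ∀ θ : ℝ, 0 < θ → ∀ A : ℝ, 0 ≤ A → ∃ C : ℝ, 1 ≤ C ∧ ∀ f : ℤ × ℤ → ℕ, Bdd f →
      ∀ Z : ℕ, 4 * 10 ^ 7 ≤ Z → ∀ d : ℤ, d ≠ 0 → (d.natAbs : ℝ) ≤ (Z : ℝ) ^ A →
        ∀ S : Finset (ℤ × ℤ), (S : Set (ℤ × ℤ)) ⊆ Gm P f Z \ X →
        ∑ c ∈ S, n d c ^ θ ≤ C * (16 * 512 ^ θ) ^ om d * ((Gm P f Z).ncard : ℝ) := by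
  classical
  obtain ⟨n, Ex, h1, h2, h3⟩ := lims
  obtain ⟨C0, hC0, hupp⟩ := fc_upper 3 (by norm_num)
  have hcl : ∀ f : ℤ × ℤ → ℕ, Bdd f → CL (ct f) := fun f hf a b g1 g2 => ct_ok hf a b g1 g2
  have hfin : ∀ f : ℤ × ℤ → ℕ, Bdd f → ∀ N : ℝ, 4 * 10 ^ 7 ≤ N →
      (Pool.Agent.TH498.CO.Fc (ct f) 3 N).Finite :=
    fun f hf N hN => (fc_fin (hcl f hf) (by norm_num) hN).1
  refine ⟨{c | nu c ∈ Ex} ∪ Tp, fun d c => n d (nu c), fun f hf => ?_, fun d hd c hc => ?_,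
    fun θ hθ A hA => ?_⟩
  · -- density
    obtain ⟨c0, Z0, hc0, hlo⟩ := Gm_ge hP
    have htp := Tp_zero hP hf
    refine (tendsto_order.2 ⟨fun a ha => Eventually.of_forall fun Z =>
      lt_of_lt_of_le ha (by positivity), fun a ha => ?_⟩)
    obtain ⟨N0, hN0, h4⟩ := h2 3 (by norm_num) (a * c0 / (4 * C0)) (by positivity)
    have h5 := htp.eventually_lt_const (show (0 : ℝ) < a / 2 by positivity)
    filter_upwards [h5, eventually_ge_atTop Z0, eventually_ge_atTop ⌈N0⌉₊,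
      eventually_ge_atTop 1] with Z g1 g2 g3 g4
    have g3' : N0 ≤ (Z : ℝ) := Nat.ceil_le.1 g3
    have hZ7 : (4 * 10 ^ 7 : ℝ) ≤ (Z : ℝ) := hN0.trans g3'
    have hZ0 : (0 : ℝ) < (Z : ℝ) := by positivity
    obtain ⟨S, hS⟩ : ∃ S : Finset (ℤ × ℤ), (S : Set (ℤ × ℤ)) =
        Pool.Agent.TH498.CO.Fc (ct f) 3 Z := ⟨(hfin f hf Z hZ7).toFinset,
      Set.Finite.coe_toFinset _⟩
    have g5 := h4 (ct f) (hcl f hf) Z g3' S hS
    have g6 := hupp (ct f) (hcl f hf) Z hZ7 S hS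
    have g7 := hlo f hf Z g2
    have g8 : (0 : ℝ) < c0 * (Z : ℝ) ^ ((2 : ℝ) / 3) := by positivity
    have g9 : (0 : ℝ) < ((Gm P f Z).ncard : ℝ) := g8.trans_le g7
    have g10 : ((Gm P f Z ∩ ({c | nu c ∈ Ex} ∪ Tp)).ncard : ℝ) ≤
        ((S.filter fun q => q ∈ Ex).card : ℝ) + ((Gm P f Z ∩ Tp).ncard : ℝ) := by
      have u1 : Gm P f Z ∩ ({c | nu c ∈ Ex} ∪ Tp) ⊆
          (nu ⁻¹' ((S.filter fun q => q ∈ Ex : Finset (ℤ × ℤ)) : Set (ℤ × ℤ))) ∪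
            (Gm P f Z ∩ Tp) := by
        rintro c ⟨v1, v2⟩
        by_cases ht : c ∈ Tp
        · exact Or.inr ⟨v1, ht⟩
        · left
          have v3 : nu c ∈ Ex := by
            rcases v2 with v2 | v2
            · exact v2
            · exact absurd v2 ht
          have v4 := mem_Fc hP hf le_rfl v1 ht
          show nu c ∈ ((S.filter fun q => q ∈ Ex : Finset (ℤ × ℤ)) : Set (ℤ × ℤ))
          rw [mem_coe, mem_filter]
          refine ⟨?_, v3⟩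
          rw [← mem_coe, hS]
          exact v4
      have u2 : (nu ⁻¹' ((S.filter fun q => q ∈ Ex : Finset (ℤ × ℤ)) : Set (ℤ × ℤ))).Finite :=
        Set.Finite.preimage nu_inj.injOn (finite_toSet _)
      have u3 : (Gm P f Z ∩ Tp).Finite := (Gm_fin hP hf Z).subset Set.inter_subset_left
      have u4 := (Set.ncard_le_ncard u1 (u2.union u3)).trans (Set.ncard_union_le _ _)
      have u5 : (nu ⁻¹' ((S.filter fun q => q ∈ Ex : Finset (ℤ × ℤ)) : Set (ℤ × ℤ))).ncard ≤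
          (S.filter fun q => q ∈ Ex).card := by
        rw [← Set.ncard_coe_finset, ← Set.ncard_image_of_injective _ nu_inj]
        exact Set.ncard_le_ncard (Set.image_preimage_subset _ _) (finite_toSet _)
      exact_mod_cast u4.trans (Nat.add_le_add_right u5 _)
    rw [div_lt_iff₀ g9] at g1 ⊢
    have g11 : ((S.filter fun q => q ∈ Ex).card : ℝ) ≤ a / 4 * ((Gm P f Z).ncard : ℝ) := by
      refine g5.trans ?_
      calc a * c0 / (4 * C0) * (S.card : ℝ) ≤ a * c0 / (4 * C0) * (C0 * (Z : ℝ) ^ ((2 : ℝ) / 3)) :=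
            mul_le_mul_of_nonneg_left g6 (by positivity)
        _ = a / 4 * (c0 * (Z : ℝ) ^ ((2 : ℝ) / 3)) := by
            field_simp
        _ ≤ _ := mul_le_mul_of_nonneg_left g7 (by positivity)
    nlinarith
  · obtain ⟨g1, g2⟩ := hP.ok c hc
    have g3 := (h1 (nu c) g1 g2).1 d hd
    unfold nu at g3 ⊢
    simp only [neg_neg] at g3
    exact g3
  · obtain ⟨C, hC, h4⟩ := h3 θ hθ 3 A (by norm_num) hA
    obtain ⟨c0, hc0, hall⟩ := Gm_all hP 1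
    refine ⟨max 1 (C * C0 / c0), le_max_left _ _, fun f hf Z hZ d hd hdZ S hS => ?_⟩
    rcases S.eq_empty_or_nonempty with hSe | hSn
    · rw [hSe, sum_empty]; positivity
    have hne : (Gm P f Z).Nonempty := by
      obtain ⟨c, hc⟩ := hSn
      exact ⟨c, (hS (mem_coe.2 hc)).1⟩
    have hZ1 : 1 ≤ Z := le_trans (by norm_num) hZ
    have hall' := hall f hf Z hne
    rw [max_eq_left hZ1] at hall'
    have hZ7 : (4 * 10 ^ 7 : ℝ) ≤ (Z : ℝ) := by exact_mod_cast hZ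
    have hZ0 : (0 : ℝ) < (Z : ℝ) := by linarith
    obtain ⟨S', hS'⟩ : ∃ S' : Finset (ℤ × ℤ), (S' : Set (ℤ × ℤ)) =
        Pool.Agent.TH498.CO.Fc (ct f) 3 Z := ⟨(hfin f hf Z hZ7).toFinset,
      Set.Finite.coe_toFinset _⟩
    have g5 := h4 (ct f) (hcl f hf) Z hZ7 S' hS' d hd hdZ
    have g6 := hupp (ct f) (hcl f hf) Z hZ7 S' hS'
    have hn0 : ∀ q ∈ S', 0 ≤ n d q := by
      intro q hq
      rw [← mem_coe, hS'] at hq
      exact zero_le_one.trans (one_le_of_bd ((h1 q hq.1 hq.2.1).1 d hd))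
    have g7 : ∑ c ∈ S, n d (nu c) ^ θ ≤ ∑ q ∈ S'.filter (fun q => q ∉ Ex), n d q ^ θ := by
      have u1 : S.image nu ⊆ S'.filter (fun q => q ∉ Ex) := by
        intro q hq
        obtain ⟨c, hc, rfl⟩ := mem_image.1 hq
        obtain ⟨v1, v2⟩ := hS (mem_coe.2 hc)
        rw [mem_filter, ← mem_coe, hS']
        exact ⟨mem_Fc hP hf le_rfl v1 fun h => v2 (Or.inr h), fun h => v2 (Or.inl h)⟩
      refine le_trans (le_of_eq ?_) (sum_le_sum_of_subset_of_nonneg u1 fun q hq _ =>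
        Real.rpow_nonneg (hn0 q (mem_filter.1 hq).1) _)
      rw [sum_image fun a _ b _ h => nu_inj h]
    refine g7.trans (g5.trans ?_)
    have hV : (0 : ℝ) ≤ (16 * 512 ^ θ) ^ om d := by positivity
    calc C * (16 * 512 ^ θ) ^ d.natAbs.primeFactors.card * (S'.card : ℝ)
        ≤ C * (16 * 512 ^ θ) ^ om d * (C0 * (Z : ℝ) ^ ((2 : ℝ) / 3)) :=
          mul_le_mul_of_nonneg_left g6 (by positivity)
      _ = C * C0 / c0 * (16 * 512 ^ θ) ^ om d * (c0 * (Z : ℝ) ^ ((2 : ℝ) / 3)) := by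
          field_simp
      _ ≤ C * C0 / c0 * (16 * 512 ^ θ) ^ om d * ((Gm P f Z).ncard : ℝ) :=
          mul_le_mul_of_nonneg_left hall' (by positivity)
      _ ≤ _ := mul_le_mul_of_nonneg_right (mul_le_mul_of_nonneg_right (le_max_right _ _)
          (by positivity)) (Nat.cast_nonneg _)

end Pool.Agent.N684.MC
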