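import Pool.Agent.N684.MC.Fld

/-! **Ranks and Tate-Shafarevich groups over multiquadratic fields, by the conductor: the
conclusions** (helper684). -/

set_option autoImplicit false

namespace Pool.Agent.N684.MC

open Filter Finset Topology Pool.Agent.H925R.Szpiro Pool.Agent.W307.RT Pool.Agent.Y679.Cr
open Pool.Agent.TH498.CO (one_le_of_bd)
open Pool.Agent.TH841.SH (Bd)
open Pool.Agent.TH841.NF (EF Gen)
open Pool.Agent.TH841.NF.D (HasDiv crk rk)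

variable {P : ℤ × ℤ → Prop}

/-- rank plus corank -/
noncomputable def rcF (F : Type) [Field F] [NumberField F] (c : ℤ × ℤ) : ℕ :=
  rk (EF c.1 c.2 F) + crk (EF c.1 c.2 F)

theorem t0 (hP : Good P) {F : Type} [Field F] [NumberField F] {s : ℕ} {d : Fin s → ℤ}
    (hF : Gen F d) (hd : ∀ i, d i ≠ 0) {c : ℤ × ℤ} (hc : P c) :
    BddAbove {q | HasDiv (EF c.1 c.2 F) q} := by
  obtain ⟨X, n, -, hn, -⟩ := offD hP
  exact Pool.Agent.TH841.NF.bdd_of fun q hq => fieldB hP hn hF hd hc hq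

theorem t1 (hP : Good P) {θ A : ℝ} (hθ0 : 0 < θ) (hθ : θ < 2 / 3) (hA : 0 ≤ A) :
    ∃ C : ℝ, 1 ≤ C ∧ ∀ f : ℤ × ℤ → ℕ, Bdd f → ∀ Z : ℕ, 1 ≤ Z →
      ∀ (F : Type) [Field F] [NumberField F] (s : ℕ) (d : Fin s → ℤ), Gen F d → (∀ i, d i ≠ 0) →
      ((∏ i, d i).natAbs : ℝ) ≤ (Z : ℝ) ^ A →
      ∀ S : Finset (ℤ × ℤ), (S : Set (ℤ × ℤ)) ⊆ Gm P f Z →
        ∑ c ∈ S, ((2 : ℝ) ^ rcF F c) ^ (θ / 2 ^ s) ≤
          C * 128 ^ om (∏ i, d i) * ((Gm P f Z).ncard : ℝ) := by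
  obtain ⟨C, n, hC, hn, h⟩ := momD hP hθ0 hθ hA
  refine ⟨C, hC, fun f hf Z hZ F _ _ s d hF hd hdZ S hS => ?_⟩
  exact (multi hP hn hθ0 (B := (Z : ℝ) ^ A) (C := C) (V := 128)
    (G := ((Gm P f Z).ncard : ℝ)) (by linarith) (by norm_num) (Nat.cast_nonneg _)
    (fun c hc => (hS (mem_coe.2 hc)).1) (fun d' hd' hd'' => h f hf Z hZ d' hd' hd'' S hS)
    hF hd hdZ).2.1

theorem t2 (hP : Good P) {A : ℝ} (hA : 0 ≤ A) :
    ∃ C : ℝ, ∀ f : ℤ × ℤ → ℕ, Bdd f → ∀ Z : ℕ, 1 ≤ Z →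
      ∀ (F : Type) [Field F] [NumberField F] (s : ℕ) (d : Fin s → ℤ), Gen F d → (∀ i, d i ≠ 0) →
      ((∏ i, d i).natAbs : ℝ) ≤ (Z : ℝ) ^ A →
      ∀ S : Finset (ℤ × ℤ), (S : Set (ℤ × ℤ)) = Gm P f Z →
        ∑ c ∈ S, (rcF F c : ℝ) / 2 ^ s ≤ (C + 14 * om (∏ i, d i)) * S.card := by
  obtain ⟨C, hC, h⟩ := t1 hP (θ := 1 / 2) (by norm_num) (by norm_num) hA
  refine ⟨2 * Real.log C / Real.log 2, fun f hf Z hZ F _ _ s d hF hd hdZ S hS => ?_⟩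
  have h1 := h f hf Z hZ F s d hF hd hdZ S hS.subset
  rw [← hS, Set.ncard_coe_finset] at h1
  have hl2 : 0 < Real.log 2 := Real.log_pos (by norm_num)
  have hM : 1 ≤ C * 128 ^ om (∏ i, d i) :=
    one_le_mul_of_one_le_of_one_le hC (one_le_pow₀ (by norm_num))
  have h2 := aver (S := S) (a := fun c => (rcF F c : ℝ) / 2 ^ s) (θ := 1 / 2)
    (by norm_num) hM (by
      refine le_trans (le_of_eq (sum_congr rfl fun c _ => ?_)) h1
      rw [← Real.rpow_natCast (2 : ℝ) (rcF F c), ← Real.rpow_mul (by norm_num)]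
      congr 1
      ring)
  refine h2.trans (le_of_eq ?_)
  have h3 : Real.log 128 = 7 * Real.log 2 := by
    rw [show (128 : ℝ) = 2 ^ 7 by norm_num, Real.log_pow]
    norm_num
  rw [Real.log_mul (by linarith) (by positivity), Real.log_pow, h3]
  field_simp
  ring

theorem t3 (hP : Good P) {F : Type} [Field F] [NumberField F] {s : ℕ} {d : Fin s → ℤ}
    (hF : Gen F d) (hd : ∀ i, d i ≠ 0) :
    ∃ C : ℝ, ∀ f : ℤ × ℤ → ℕ, Bdd f → ∀ (Z : ℕ) (S : Finset (ℤ × ℤ)),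
      (S : Set (ℤ × ℤ)) = Gm P f Z → ∑ c ∈ S, (rcF F c : ℝ) ≤ C * S.card := by
  classical
  obtain ⟨C, h⟩ := t2 hP (A := 1) (by norm_num)
  obtain ⟨D0, hD0⟩ : ∃ D0 : ℕ, D0 = (∏ i, d i).natAbs := ⟨_, rfl⟩
  have hD1 : 1 ≤ D0 := by
    rw [hD0]
    exact Nat.pos_of_ne_zero (Int.natAbs_ne_zero.2 (prod_ne_zero_iff.2 fun i _ => hd i))
  have hB1 : Bdd fun _ : ℤ × ℤ => 1 := fun _ => ⟨le_rfl, by norm_num⟩
  have hfin := Gm_fin hP hB1 D0
  obtain ⟨M, hM⟩ : ∃ M : ℕ, ∀ c ∈ Gm P (fun _ => 1) D0, rcF F c ≤ M := by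
    refine ⟨hfin.toFinset.sup (rcF F), fun c hc => ?_⟩
    exact le_sup (f := rcF F) (hfin.mem_toFinset.2 hc)
  refine ⟨max (2 ^ s * (C + 14 * om (∏ i, d i))) M, fun f hf Z S hS => ?_⟩
  have hS0 : (0 : ℝ) ≤ S.card := Nat.cast_nonneg _
  by_cases hZ : D0 ≤ Z
  · have h1 := h f hf Z (hD1.trans hZ) F s d hF hd (by
      rw [Real.rpow_one, ← hD0]
      exact_mod_cast hZ) S hS
    rw [← sum_div, div_le_iff₀ (by positivity)] at h1
    refine h1.trans ?_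
    calc (C + 14 * ↑(om (∏ i, d i))) * ↑S.card * 2 ^ s =
          (2 ^ s * (C + 14 * om (∏ i, d i))) * S.card := by ring
      _ ≤ _ := mul_le_mul_of_nonneg_right (le_max_left _ _) hS0
  · have h1 : ∀ c ∈ S, (rcF F c : ℝ) ≤ M := by
      intro c hc
      have h2 : c ∈ Gm P f Z := by
        rw [← hS]
        exact mem_coe.2 hc
      refine Nat.cast_le.2 (hM c ⟨h2.1, ?_⟩)
      rw [one_mul]
      exact (cs_le (hf c).1 h2.2).trans (by omega)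
    refine (sum_le_card_nsmul _ _ _ h1).trans ?_
    rw [nsmul_eq_mul, mul_comm]
    exact mul_le_mul_of_nonneg_right (le_max_right _ _) hS0

theorem t45 (hP : Good P) : ∃ X : Set (ℤ × ℤ),
    (∀ f : ℤ × ℤ → ℕ, Bdd f →
      Tendsto (fun Z : ℕ => ((Gm P f Z ∩ X).ncard : ℝ) / (Gm P f Z).ncard) atTop (𝓝 0)) ∧
    ∀ (s : ℕ) (θ A : ℝ), 0 < θ → 0 ≤ A → ∃ C V : ℝ, 0 ≤ C ∧ 0 ≤ V ∧
      ∀ f : ℤ × ℤ → ℕ, Bdd f → ∀ Z : ℕ, 4 * 10 ^ 7 ≤ Z →
      ∀ (F : Type) [Field F] [NumberField F] (d : Fin s → ℤ), Gen F d → (∀ i, d i ≠ 0) →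
      ((∏ i, d i).natAbs : ℝ) ≤ (Z : ℝ) ^ A →
      ∀ S : Finset (ℤ × ℤ), (S : Set (ℤ × ℤ)) ⊆ Gm P f Z \ X →
        ∑ c ∈ S, ((2 : ℝ) ^ rcF F c) ^ θ ≤
          C * V ^ om (∏ i, d i) * ((Gm P f Z).ncard : ℝ) ∧
        ∀ m : ℕ, ((S.filter (fun c => m ≤ rcF F c)).card : ℝ) ≤
          C * V ^ om (∏ i, d i) * ((Gm P f Z).ncard : ℝ) / ((2 : ℝ) ^ m) ^ θ := by
  classical
  obtain ⟨X, n, hX, hn, h⟩ := offD hP
  refine ⟨X, hX, fun s θ A hθ hA => ?_⟩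
  obtain ⟨C, hC, h1⟩ := h (2 ^ s * θ) (by positivity) A hA
  have hV : (1 : ℝ) ≤ 16 * 512 ^ (2 ^ s * θ) := by
    have : (1 : ℝ) ≤ 512 ^ (2 ^ s * θ) := Real.one_le_rpow (by norm_num) (by positivity)
    linarith
  refine ⟨C, 16 * 512 ^ (2 ^ s * θ), by linarith, by linarith,
    fun f hf Z hZ F _ _ d hF hd hdZ S hS => ?_⟩
  have h2 := multi hP hn (θ := 2 ^ s * θ) (by positivity) (B := (Z : ℝ) ^ A) (C := C)
    (V := 16 * 512 ^ (2 ^ s * θ)) (G := ((Gm P f Z).ncard : ℝ)) (by linarith) hV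
    (Nat.cast_nonneg _) (fun c hc => (hS (mem_coe.2 hc)).1.1)
    (fun d' hd' hd'' => h1 f hf Z hZ d' hd' hd'' S hS) hF hd hdZ
  have e : 2 ^ s * θ / 2 ^ s = θ := by field_simp
  rw [e] at h2
  exact h2.2

theorem t5 (hP : Good P) {F : Type} [Field F] [NumberField F] {s : ℕ} {d : Fin s → ℤ}
    (hF : Gen F d) (hd : ∀ i, d i ≠ 0) {f : ℤ × ℤ → ℕ} (hf : Bdd f) (A : ℝ) :
    Tendsto (fun r : ℕ => A ^ r * limsup (fun Z : ℕ =>
      ((Gm P f Z ∩ {c | r ≤ rcF F c}).ncard : ℝ) / (Gm P f Z).ncard) atTop) atTop (𝓝 0) := by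
  classical
  obtain ⟨X, hX, h⟩ := t45 hP
  obtain ⟨θ, hθ0, hθA⟩ : ∃ θ : ℝ, 0 < θ ∧ |A| < (2 : ℝ) ^ θ := by
    refine ⟨Real.logb 2 (|A| + 2), Real.logb_pos (by norm_num) (by linarith [abs_nonneg A]), ?_⟩
    rw [Real.rpow_logb (by norm_num) (by norm_num) (by linarith [abs_nonneg A])]
    linarith
  obtain ⟨C, V, hC, hV, h1⟩ := h s θ 1 hθ0 (by norm_num)
  obtain ⟨K, hK⟩ : ∃ K : ℝ, K = C * V ^ om (∏ i, d i) := ⟨_, rfl⟩
  have hK0 : 0 ≤ K := by rw [hK]; positivity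
  obtain ⟨D0, hD0⟩ : ∃ D0 : ℕ, D0 = (∏ i, d i).natAbs := ⟨_, rfl⟩
  -- the bound for the proportions
  have hprop : ∀ r : ℕ, ∀ᶠ Z : ℕ in atTop,
      ((Gm P f Z ∩ {c | r ≤ rcF F c}).ncard : ℝ) / (Gm P f Z).ncard ≤
        ((Gm P f Z ∩ X).ncard : ℝ) / (Gm P f Z).ncard + K / ((2 : ℝ) ^ r) ^ θ := by
    intro r
    filter_upwards [eventually_ge_atTop D0, eventually_ge_atTop (4 * 10 ^ 7)] with Z hZ1 hZ2
    obtain ⟨S, hS⟩ : ∃ S : Finset (ℤ × ℤ), (S : Set (ℤ × ℤ)) = Gm P f Z \ X :=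
      ⟨((Gm_fin hP hf Z).subset Set.sdiff_subset).toFinset, Set.Finite.coe_toFinset _⟩
    have h2 := (h1 f hf Z hZ2 F d hF hd (by
      rw [Real.rpow_one, ← hD0]
      exact_mod_cast hZ1) S hS.subset).2 r
    rw [← hK] at h2
    rcases Nat.eq_zero_or_pos (Gm P f Z).ncard with h3 | h3
    · rw [h3]
      simp only [Nat.cast_zero, div_zero, zero_add]
      positivity
    · have h4 : (0 : ℝ) < ((Gm P f Z).ncard : ℝ) := by exact_mod_cast h3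
      rw [div_add' _ _ _ h4.ne', div_le_div_iff_of_pos_right h4]
      have h5 : ((Gm P f Z ∩ {c | r ≤ rcF F c}).ncard : ℝ) ≤
          ((Gm P f Z ∩ X).ncard : ℝ) + ((S.filter (fun c => r ≤ rcF F c)).card : ℝ) := by
        have u1 : Gm P f Z ∩ {c | r ≤ rcF F c} ⊆
            (Gm P f Z ∩ X) ∪ ((S.filter (fun c => r ≤ rcF F c) : Finset (ℤ × ℤ)) :
              Set (ℤ × ℤ)) := by
          rintro c ⟨v1, v2⟩
          by_cases hx : c ∈ X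
          · exact Or.inl ⟨v1, hx⟩
          · right
            rw [mem_coe, mem_filter, ← mem_coe, hS]
            exact ⟨⟨v1, hx⟩, v2⟩
        have u2 : (Gm P f Z ∩ X).Finite := (Gm_fin hP hf Z).subset Set.inter_subset_left
        have u3 := (Set.ncard_le_ncard u1 (u2.union (finite_toSet _))).trans
          (Set.ncard_union_le _ _)
        rw [Set.ncard_coe_finset] at u3
        exact_mod_cast u3
      refine h5.trans (add_le_add le_rfl (h2.trans (le_of_eq ?_)))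
      ring
  have hnn : ∀ r : ℕ, ∀ Z : ℕ,
      (0 : ℝ) ≤ ((Gm P f Z ∩ {c | r ≤ rcF F c}).ncard : ℝ) / (Gm P f Z).ncard := fun r Z => by
    positivity
  have hcob : ∀ r : ℕ, IsCoboundedUnder (· ≤ ·) atTop (fun Z : ℕ =>
      ((Gm P f Z ∩ {c | r ≤ rcF F c}).ncard : ℝ) / (Gm P f Z).ncard) := fun r =>
    IsBoundedUnder.isCoboundedUnder_le (isBoundedUnder_of ⟨0, hnn r⟩)
  have hbd : ∀ r : ℕ, IsBoundedUnder (· ≤ ·) atTop (fun Z : ℕ =>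
      ((Gm P f Z ∩ {c | r ≤ rcF F c}).ncard : ℝ) / (Gm P f Z).ncard) := by
    intro r
    refine isBoundedUnder_of ⟨1, fun Z => div_le_one_of_le₀ ?_ (Nat.cast_nonneg _)⟩
    exact_mod_cast Set.ncard_le_ncard Set.inter_subset_left (Gm_fin hP hf Z)
  have hlo : ∀ r : ℕ, 0 ≤ limsup (fun Z : ℕ =>
      ((Gm P f Z ∩ {c | r ≤ rcF F c}).ncard : ℝ) / (Gm P f Z).ncard) atTop := fun r =>
    le_limsup_of_frequently_le (Eventually.frequently (Eventually.of_forall (hnn r))) (hbd r)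
  have hle : ∀ r : ℕ, limsup (fun Z : ℕ =>
      ((Gm P f Z ∩ {c | r ≤ rcF F c}).ncard : ℝ) / (Gm P f Z).ncard) atTop ≤
        K / ((2 : ℝ) ^ r) ^ θ := by
    intro r
    refine le_of_forall_pos_le_add fun ε hε => ?_
    refine limsup_le_of_le (hcob r) ?_
    filter_upwards [hprop r, (hX f hf).eventually_lt_const hε] with Z g1 g2
    linarith
  have hgeo : Tendsto (fun r : ℕ => K * (|A| / 2 ^ θ) ^ r) atTop (𝓝 0) := by
    have h2 : (0 : ℝ) < 2 ^ θ := by positivity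
    have := (tendsto_pow_atTop_nhds_zero_of_lt_one (r := |A| / 2 ^ θ) (by positivity)
      ((div_lt_one h2).2 hθA)).const_mul K
    rwa [mul_zero] at this
  refine squeeze_zero_norm (fun r => ?_) hgeo
  rw [Real.norm_eq_abs, abs_mul, abs_pow, abs_of_nonneg (hlo r)]
  refine (mul_le_mul_of_nonneg_left (hle r) (by positivity)).trans (le_of_eq ?_)
  rw [div_pow, ← Real.rpow_natCast (2 : ℝ) r, ← Real.rpow_mul (by norm_num), mul_comm (r : ℝ) θ,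
    Real.rpow_mul (by norm_num), Real.rpow_natCast]
  ring

end Pool.Agent.N684.MC
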