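import Pool.Agent.Y679.Cr.Triv

/-! **The trivial bound of the 2-Selmer groups of the quadratic twists in terms of the conductor**
(helper684). -/

set_option autoImplicit false

namespace Pool.Agent.N684.MC

open Finset Pool.Agent.H925R.Szpiro Pool.Agent.W307.RT Pool.Agent.W262.RK Pool.Agent.W307.SE
  Pool.Agent.W307.FK Pool.Agent.W410.FK Pool.Agent.TH841.SH Pool.Agent.Y679.Cr

theorem bd_triv_tw {a b : ℤ} (hmin : IsMin a b) (hf : FullS a b) {d : ℤ} (hd : d ≠ 0) :
    Bd (Sh (d ^ 2 * (-a)) (d ^ 3 * (-b)))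
      (256 * 4 ^ (condS a b).primeFactors.card * 4 ^ d.natAbs.primeFactors.card) := by
  obtain ⟨e1, e2, e3, hs, ha, hb⟩ := fullS_int a b hf
  have hx : ∀ x : ℤ, x ^ 3 + (d ^ 2 * (-a)) * x + (d ^ 3 * (-b)) =
      (x - d * e1) * (x - d * e2) * (x - d * e3) := by
    intro x
    rw [ha, hb]
    linear_combination (d * x ^ 2) * hs
  have hDe : D a b = ((e2 - e1) * (e3 - e1) * ((e2 - e1) - (e3 - e1))) ^ 2 := by
    have h3 : e3 = -e1 - e2 := by linarith
    unfold D
    rw [ha, hb, h3]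
    ring
  have hD0 : D a b ≠ 0 := hmin.1
  have hprod : (e2 - e1) * (e3 - e1) * ((e2 - e1) - (e3 - e1)) ≠ 0 := by
    intro h0
    apply hD0
    rw [hDe, h0]
    ring
  have hM0 : e2 - e1 ≠ 0 := left_ne_zero_of_mul (left_ne_zero_of_mul hprod)
  have hN0 : e3 - e1 ≠ 0 := right_ne_zero_of_mul (left_ne_zero_of_mul hprod)
  have hMN0 : e2 - e1 ≠ e3 - e1 := sub_ne_zero.1 (right_ne_zero_of_mul hprod)
  have hM : d * (e2 - e1) ≠ 0 := mul_ne_zero hd hM0
  have hN : d * (e3 - e1) ≠ 0 := mul_ne_zero hd hN0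
  have hMN : d * (e2 - e1) ≠ d * (e3 - e1) := fun h => hMN0 (mul_left_cancel₀ hd h)
  obtain ⟨h1, h2⟩ := seld 1 (fun _ _ _ _ _ => True) (d * (e2 - e1)) (d * (e3 - e1)) hM hN hMN
    odd_one squarefree_one (fun p hp hp1 => absurd (Nat.dvd_one.1 hp1) hp.one_lt.ne')
    (fun p hp hp1 => absurd (Nat.dvd_one.1 hp1) hp.out.one_lt.ne')
  have h3 : NL 1 (fun _ _ _ _ _ => True) = 1 := by
    unfold NL
    simp
  rw [h3, mul_one] at h2
  have hD' : 4 * (d ^ 2 * (-a)) ^ 3 + 27 * (d ^ 3 * (-b)) ^ 2 ≠ 0 := by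
    have : 4 * (d ^ 2 * (-a)) ^ 3 + 27 * (d ^ 3 * (-b)) ^ 2 = -(d ^ 6 * D a b) := by
      unfold D
      ring
    rw [this, neg_ne_zero]
    exact mul_ne_zero (pow_ne_zero 6 hd) hD0
  obtain ⟨h4, h5⟩ := selc (d ^ 2 * (-a)) (d ^ 3 * (-b)) (d * e1) (d * e2) (d * e3)
    (d * (e2 - e1)) (d * (e3 - e1)) 1 hD' hx one_ne_zero
    (by push_cast; ring) (by push_cast; ring) h1
  refine Bd_mono (bd_selR hD' hx h4) ?_
  have h7 : ((2 * (d * (e2 - e1)) * (d * (e3 - e1)) *
      ((d * (e2 - e1)) - (d * (e3 - e1)))).natAbs.primeFactors.filter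
      (fun q => ¬ q ∣ 1)).card ≤ (condS a b).primeFactors.card + d.natAbs.primeFactors.card + 2 := by
    refine (card_filter_le _ _).trans ?_
    have hsub : (2 * (d * (e2 - e1)) * (d * (e3 - e1)) *
        ((d * (e2 - e1)) - (d * (e3 - e1)))).natAbs.primeFactors ⊆
        ((condS a b).primeFactors ∪ d.natAbs.primeFactors) ∪ {2, 3} := by
      intro p hp
      obtain ⟨hpp, hpd, hp0⟩ := Nat.mem_primeFactors.1 hp
      rw [mem_union, mem_union]
      by_cases h5p : 5 ≤ p
      · left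
        have e : 2 * (d * (e2 - e1)) * (d * (e3 - e1)) * ((d * (e2 - e1)) - (d * (e3 - e1))) =
            2 * (d ^ 3 * ((e2 - e1) * (e3 - e1) * ((e2 - e1) - (e3 - e1)))) := by ring
        rw [e] at hpd
        have hpd' : (p : ℤ) ∣ 2 * (d ^ 3 * ((e2 - e1) * (e3 - e1) *
          ((e2 - e1) - (e3 - e1)))) := Int.natCast_dvd.2 hpd
        have hpi := Nat.prime_iff_prime_int.1 hpp
        rcases hpi.dvd_or_dvd hpd' with h | h
        · exfalso
          have := Int.le_of_dvd (by norm_num) h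
          omega
        rcases hpi.dvd_or_dvd h with h | h
        · right
          exact Nat.mem_primeFactors.2 ⟨hpp, Int.natCast_dvd.1 (hpi.dvd_of_dvd_pow h),
            Int.natAbs_ne_zero.2 hd⟩
        · left
          refine cond_primes hpp h5p hD0 ?_
          rw [hDe]
          exact dvd_pow h two_ne_zero
      · right
        have h2p := hpp.two_le
        have h4p : p ≠ 4 := by
          rintro rfl
          norm_num at hpp
        simp only [mem_insert, mem_singleton]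
        omega
    refine (card_le_card hsub).trans ((card_union_le _ _).trans ?_)
    have h8 : ({2, 3} : Finset ℕ).card = 2 := by decide
    rw [h8]
    exact Nat.add_le_add_right (card_union_le _ _) 2
  have h8 : (SelR (d ^ 2 * (-a)) (d ^ 3 * (-b))).ncard ≤
      256 * 4 ^ (condS a b).primeFactors.card * 4 ^ d.natAbs.primeFactors.card := by
    refine h5.trans (h2.trans ?_)
    calc 4 ^ (((2 * (d * (e2 - e1)) * (d * (e3 - e1)) *
        ((d * (e2 - e1)) - (d * (e3 - e1)))).natAbs.primeFactors.filter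
        (fun q => ¬ q ∣ 1)).card + 2) ≤
        4 ^ ((condS a b).primeFactors.card + d.natAbs.primeFactors.card + 4) :=
          Nat.pow_le_pow_right (by norm_num) (by omega)
      _ = 256 * 4 ^ (condS a b).primeFactors.card * 4 ^ d.natAbs.primeFactors.card := by
          rw [pow_add, pow_add]
          ring
  exact_mod_cast h8

theorem bd_eps_tw (ε : ℝ) (hε : 0 < ε) : ∃ C : ℝ, 1 ≤ C ∧ ∀ a b : ℤ, IsMin a b → FullS a b →
    ∀ d : ℤ, d ≠ 0 →
    Bd (Sh (d ^ 2 * (-a)) (d ^ 3 * (-b)))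
      (C * (condS a b : ℝ) ^ ε * 4 ^ d.natAbs.primeFactors.card) := by
  obtain ⟨C0, hC0, h⟩ := Pool.Agent.Helper112.divisor_bound (ε / 2) (by positivity)
  refine ⟨max 1 (256 * C0 ^ 2), le_max_left _ _, fun a b hmin hf d hd =>
    Bd_mono (bd_triv_tw hmin hf hd) ?_⟩
  have hpos := Pool.Agent.Y679.Cur.condS_pos a b
  have h1 := h _ hpos
  have h2 : (2 : ℝ) ^ (condS a b).primeFactors.card ≤ ((condS a b).divisors.card : ℝ) := by
    exact_mod_cast Pool.Agent.TH342.SQ.two_pow_le _ hpos.ne'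
  have h3 := h2.trans h1
  have hx : (0 : ℝ) ≤ (condS a b : ℝ) := Nat.cast_nonneg _
  have h4 : (((condS a b : ℕ) : ℝ) ^ (ε / 2)) ^ 2 = ((condS a b : ℕ) : ℝ) ^ ε := by
    rw [← Real.rpow_natCast, ← Real.rpow_mul hx]
    congr 1
    push_cast
    ring
  refine mul_le_mul_of_nonneg_right ?_ (by positivity)
  calc (256 : ℝ) * 4 ^ (condS a b).primeFactors.card
      = 256 * (2 ^ (condS a b).primeFactors.card) ^ 2 := by
        rw [← pow_mul, mul_comm (condS a b).primeFactors.card 2, pow_mul]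
        norm_num
    _ ≤ 256 * (C0 * ((condS a b : ℕ) : ℝ) ^ (ε / 2)) ^ 2 := by
        have := pow_le_pow_left₀ (by positivity) h3 2
        linarith
    _ = 256 * C0 ^ 2 * ((condS a b : ℕ) : ℝ) ^ ε := by
        rw [mul_pow, h4]
        ring
    _ ≤ _ := mul_le_mul_of_nonneg_right (le_max_right _ _) (by positivity)

end Pool.Agent.N684.MC
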